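import Pool.Agent.H.MP_8b9f13_co.E

namespace Pool.Agent.Results.MP_8b9f13_co.No

/-- `T` is a tree with all degrees 1 or 3 whose degree-one vertices are labelled bijectively. -/
def IsPhylo {V : Type} {n : ℕ} (T : SimpleGraph V) (l : Fin n → V) : Prop :=
  T.IsTree ∧ (∀ v, (T.neighborSet v).ncard = 1 ∨ (T.neighborSet v).ncard = 3) ∧
    Function.Injective l ∧ ∀ v, (T.neighborSet v).ncard = 1 ↔ v ∈ Set.range l

/-- Partitions of the labels obtained by deleting a set of edges. -/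
def Parts {V : Type} {n : ℕ} (T : SimpleGraph V) (l : Fin n → V) : Set (Setoid (Fin n)) :=
  {s | ∃ D : Set (Sym2 V), ∀ i j, s i j ↔ (T.deleteEdges D).Reachable (l i) (l j)}

/-- Common partitions with `k` classes and at least two classes of size at least two. -/
noncomputable def cnt {V W : Type} {n : ℕ} (T : SimpleGraph V) (l : Fin n → V)
    (F : SimpleGraph W) (l' : Fin n → W) (k : ℕ) : ℕ :=
  Set.ncard {s | s ∈ Parts T l ∧ s ∈ Parts F l' ∧ Nat.card (Quotient s) = k ∧
    ∃ a b c d, a ≠ b ∧ c ≠ d ∧ s a b ∧ s c d ∧ ¬ s a c}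

open Pool.Agent.H.MP_8b9f13_co in
theorem result : ∃ (n : ℕ) (V W : Type) (_ : Finite V) (_ : Finite W) (T : SimpleGraph V)
    (l : Fin n → V) (F : SimpleGraph W) (l' : Fin n → W), IsPhylo T l ∧ IsPhylo F l' ∧
    (¬ ∃ m, 1 ≤ m ∧ m ≤ n ∧
      (∀ k, 1 ≤ k → k < m → cnt T l F l' k ≤ cnt T l F l' (k + 1)) ∧
      (∀ k, m ≤ k → k < n → cnt T l F l' (k + 1) ≤ cnt T l F l' k)) ∧
    ∃ k, 1 < k ∧ k < n ∧ cnt T l F l' k ^ 2 < cnt T l F l' (k - 1) * cnt T l F l' (k + 1) := by
  have hc : ∀ k, k ≤ 20 → cnt (cat fun i : Fin (17 + 3) => clamp 17 i) Sum.inr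
      (cat fun i : Fin (17 + 3) => clamp 17 (y1 i)) Sum.inr k =
      dig (run (2 ^ 48) (ba y1 0 20) (.nd .lf 0 (init 20 2) 1 .lf)) k := by
    intro k hk
    rw [← X_dig 20 y1 2 k (by omega) (by norm_num) hk]
    unfold cnt
    congr 1
    ext s
    have := X_eq (m := 17) y1 (by decide +kernel) (by decide +kernel) s
    simp only [Parts, X, Set.mem_setOf_eq, this.1, this.2, Q]
    simp
  have h := c1
  simp only [Prod.mk.injEq] at h
  rw [← hc _ (by omega), ← hc _ (by omega), ← hc _ (by omega)] at h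
  obtain ⟨h1, h2, h3⟩ := h
  refine ⟨17 + 3, _, _, inferInstance, inferInstance, cat fun i : Fin (17 + 3) => clamp 17 i,
    Sum.inr, cat fun i : Fin (17 + 3) => clamp 17 (y1 i), Sum.inr,
    phylo _ (by omega) rfl (by decide +kernel), phylo _ (by omega) rfl (by decide +kernel), ?_,
    13, by omega, by omega, ?_⟩
  · rintro ⟨m, -, -, a, b⟩
    by_cases e : 13 ≤ m
    · have := a 12 (by omega) (by omega)
      exact absurd ((h1.symm.le.trans this).trans h2.le) (by norm_num)
    · have := b 13 (by omega) (by omega)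
      exact absurd ((h3.symm.le.trans this).trans h2.le) (by norm_num)
  · show _ < cnt _ _ _ _ 12 * cnt _ _ _ _ 14
    rw [h1, h2, h3]; norm_num

end Pool.Agent.Results.MP_8b9f13_co.No
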